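import Pool.Agent.Helper2.RG.St

/-!
# Project RG, module COH (helper57)
-/

open scoped Pointwise NumberField
open NumberField Pool.RG

namespace Pool.Agent.Helper57.RG

section abs

variable {l : ℕ} [hl : Fact l.Prime] {n : ℕ}

theorem addLe {x y : Fin n → ℚ_[l]} {ε : ℝ} (hx : ‖x‖ ≤ ε) (hy : ‖y‖ ≤ ε) : ‖x + y‖ ≤ ε :=
  (IsUltrametricDist.norm_add_le_max x y).trans (max_le hx hy)

theorem mvLe (A : Matrix (Fin n) (Fin n) ℚ_[l]) (δ : ℝ) (hδ : 0 ≤ δ) (hA : ∀ i j, ‖A i j‖ ≤ δ)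
    (w : Fin n → ℚ_[l]) : ‖A.mulVec w‖ ≤ δ * ‖w‖ := by
  rw [pi_norm_le_iff_of_nonneg (mul_nonneg hδ (norm_nonneg _))]
  intro i
  change ‖∑ j, A i j * w j‖ ≤ _
  refine IsUltrametricDist.norm_sum_le_of_forall_le_of_nonneg (mul_nonneg hδ (norm_nonneg _))
    fun j _ => ?_
  rw [norm_mul]
  exact mul_le_mul (hA i j) (norm_le_pi_norm w j) (norm_nonneg _) hδ

variable {G : Type*} [Group G] {R : G → Matrix (Fin n) (Fin n) ℚ_[l]} {c : G → Fin n → ℚ_[l]}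

theorem cOne (hR1 : R 1 = 1) (hc : ∀ s t, c (s * t) = c s + (R s).mulVec (c t)) : c 1 = 0 := by
  have h := hc 1 1
  rw [mul_one, hR1, Matrix.one_mulVec] at h
  simpa using h

theorem cInv (hR1 : R 1 = 1) (hc : ∀ s t, c (s * t) = c s + (R s).mulVec (c t)) (s : G) :
    c s⁻¹ = - (R s⁻¹).mulVec (c s) := by
  have h := hc s⁻¹ s
  rw [inv_mul_cancel, cOne hR1 hc] at h
  exact eq_neg_of_add_eq_zero_left h.symm

theorem rInv (hR1 : R 1 = 1) (hRm : ∀ s t, R (s * t) = R s * R t) (s : G) (w : Fin n → ℚ_[l]) :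
    (R s⁻¹).mulVec ((R s).mulVec w) = w := by
  rw [Matrix.mulVec_mulVec, ← hRm, inv_mul_cancel, hR1, Matrix.one_mulVec]

theorem rInv' (hR1 : R 1 = 1) (hRm : ∀ s t, R (s * t) = R s * R t) (s : G) (w : Fin n → ℚ_[l]) :
    (R s).mulVec ((R s⁻¹).mulVec w) = w := by
  rw [Matrix.mulVec_mulVec, ← hRm, mul_inv_cancel, hR1, Matrix.one_mulVec]

/-- The subgroup of elements acting trivially up to `δ` on which `c` is at most `ε`. -/
def W (hR : ∀ s w, ‖(R s).mulVec w‖ ≤ ‖w‖) (hR1 : R 1 = 1) (hRm : ∀ s t, R (s * t) = R s * R t)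
    (hc : ∀ s t, c (s * t) = c s + (R s).mulVec (c t)) (δ ε : ℝ) (hδ : 0 ≤ δ) (hε : 0 ≤ ε) :
    Subgroup G where
  carrier := {s | (∀ w, ‖(R s).mulVec w - w‖ ≤ δ * ‖w‖) ∧ ‖c s‖ ≤ ε}
  mul_mem' := by
    rintro a b ⟨ha, ha'⟩ ⟨hb, hb'⟩
    refine ⟨fun w => ?_, ?_⟩
    · have e : (R (a * b)).mulVec w - w
          = (R a).mulVec ((R b).mulVec w - w) + ((R a).mulVec w - w) := by
        rw [hRm, ← Matrix.mulVec_mulVec, Matrix.mulVec_sub]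
        abel
      rw [e]
      exact addLe ((hR _ _).trans (hb w)) (ha w)
    · rw [hc]
      exact addLe ha' ((hR _ _).trans hb')
  one_mem' := by
    refine ⟨fun w => ?_, ?_⟩
    · rw [hR1, Matrix.one_mulVec, sub_self, norm_zero]
      exact mul_nonneg hδ (norm_nonneg _)
    · rw [cOne hR1 hc, norm_zero]
      exact hε
  inv_mem' := by
    rintro a ⟨ha, ha'⟩
    refine ⟨fun w => ?_, ?_⟩
    · have e : (R a⁻¹).mulVec w - w = - (R a⁻¹).mulVec ((R a).mulVec w - w) := by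
        rw [Matrix.mulVec_sub, rInv hR1 hRm]
        abel
      rw [e, norm_neg]
      exact (hR _ _).trans (ha w)
    · rw [cInv hR1 hc, norm_neg]
      exact (hR _ _).trans ha'

theorem conjW (hR : ∀ s w, ‖(R s).mulVec w‖ ≤ ‖w‖) (hR1 : R 1 = 1)
    (hRm : ∀ s t, R (s * t) = R s * R t) (hc : ∀ s t, c (s * t) = c s + (R s).mulVec (c t))
    (δ ε B : ℝ) (hδ : 0 ≤ δ) (hε : 0 ≤ ε) (hB : ∀ s, ‖c s‖ ≤ B) (hδB : δ * B ≤ ε) (g u : G)
    (hu : u ∈ W hR hR1 hRm hc δ ε hδ hε) : g * u * g⁻¹ ∈ W hR hR1 hRm hc δ ε hδ hε := by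
  obtain ⟨hu1, hu2⟩ := hu
  refine ⟨fun w => ?_, ?_⟩
  · have e : (R (g * u * g⁻¹)).mulVec w - w
        = (R g).mulVec ((R u).mulVec ((R g⁻¹).mulVec w) - (R g⁻¹).mulVec w) := by
      rw [hRm, hRm, ← Matrix.mulVec_mulVec, ← Matrix.mulVec_mulVec, Matrix.mulVec_sub,
        rInv' hR1 hRm]
    rw [e]
    exact (hR _ _).trans ((hu1 _).trans (mul_le_mul_of_nonneg_left (hR _ _) hδ))
  · have e0 : c g = - (R g).mulVec (c g⁻¹) := by
      have h := hc g g⁻¹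
      rw [mul_inv_cancel, cOne hR1 hc] at h
      exact eq_neg_of_add_eq_zero_left h.symm
    have e : c (g * u * g⁻¹) = (R g).mulVec (c u + ((R u).mulVec (c g⁻¹) - c g⁻¹)) := by
      rw [hc, hc, e0, hRm, ← Matrix.mulVec_mulVec, Matrix.mulVec_add, Matrix.mulVec_sub]
      abel
    rw [e]
    exact (hR _ _).trans (addLe hu2 ((hu1 _).trans
      ((mul_le_mul_of_nonneg_left (hB _) hδ).trans hδB)))

theorem powR (hR1 : R 1 = 1) (hRm : ∀ s t, R (s * t) = R s * R t) (δ : ℝ)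
    (hR : ∀ s w, ‖(R s).mulVec w‖ ≤ ‖w‖) (hδ : 0 ≤ δ) (x : G)
    (hx : ∀ w, ‖(R x).mulVec w - w‖ ≤ δ * ‖w‖) (j : ℕ) :
    ∀ w, ‖(R (x ^ j)).mulVec w - w‖ ≤ δ * ‖w‖ := by
  induction j with
  | zero =>
    intro w
    rw [pow_zero, hR1, Matrix.one_mulVec, sub_self, norm_zero]
    exact mul_nonneg hδ (norm_nonneg _)
  | succ k ih =>
    intro w
    have e : (R (x ^ (k + 1))).mulVec w - w
        = (R (x ^ k)).mulVec ((R x).mulVec w - w) + ((R (x ^ k)).mulVec w - w) := by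
      rw [pow_succ, hRm, ← Matrix.mulVec_mulVec, Matrix.mulVec_sub]
      abel
    rw [e]
    exact addLe ((hR _ _).trans (hx w)) (ih w)

theorem normL : ‖(l : ℚ_[l])‖ = (l : ℝ)⁻¹ := Padic.norm_p

/-- one step: the `l`-th power improves by a factor `1/l` -/
theorem stepR (hR1 : R 1 = 1) (hRm : ∀ s t, R (s * t) = R s * R t) (δ : ℝ)
    (hR : ∀ s w, ‖(R s).mulVec w‖ ≤ ‖w‖) (hδ : 0 ≤ δ) (hδl : δ ≤ (l : ℝ)⁻¹) (x : G)
    (hx : ∀ w, ‖(R x).mulVec w - w‖ ≤ δ * ‖w‖) :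
    ∀ w, ‖(R (x ^ l)).mulVec w - w‖ ≤ (δ * (l : ℝ)⁻¹) * ‖w‖ := by
  intro w
  have key : ∀ j : ℕ, ∃ u : Fin n → ℚ_[l], (R (x ^ j)).mulVec w - w = (R x).mulVec u - u ∧
      ‖u - (j : ℚ_[l]) • w‖ ≤ δ * ‖w‖ := by
    intro j
    induction j with
    | zero =>
      refine ⟨0, ?_, ?_⟩
      · rw [pow_zero, hR1, Matrix.one_mulVec, Matrix.mulVec_zero]; simp
      · simp only [Nat.cast_zero, zero_smul, sub_self, norm_zero]
        exact mul_nonneg hδ (norm_nonneg _)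
    | succ k ih =>
      obtain ⟨u, hu1, hu2⟩ := ih
      refine ⟨u + (R (x ^ k)).mulVec w, ?_, ?_⟩
      · rw [Matrix.mulVec_add]
        have e1 : (R (x ^ (k + 1))).mulVec w = (R x).mulVec ((R (x ^ k)).mulVec w) := by
          rw [pow_succ', hRm, ← Matrix.mulVec_mulVec]
        rw [e1]
        have e2 : (R x).mulVec u = (R (x ^ k)).mulVec w - w + u := by
          rw [hu1]; abel
        rw [e2]
        abel
      · have e : u + (R (x ^ k)).mulVec w - ((k + 1 : ℕ) : ℚ_[l]) • w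
            = (u - (k : ℚ_[l]) • w) + ((R (x ^ k)).mulVec w - w) := by
          push_cast
          rw [add_smul, one_smul]
          abel
        rw [e]
        exact addLe hu2 (powR hR1 hRm δ hR hδ x hx k w)
  obtain ⟨u, hu1, hu2⟩ := key l
  rw [hu1]
  have hu3 : ‖u‖ ≤ (l : ℝ)⁻¹ * ‖w‖ := by
    have e : u = (u - (l : ℚ_[l]) • w) + (l : ℚ_[l]) • w := by abel
    rw [e]
    refine addLe (hu2.trans (mul_le_mul_of_nonneg_right hδl (norm_nonneg _))) ?_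
    rw [norm_smul, normL]
  calc ‖(R x).mulVec u - u‖ ≤ δ * ‖u‖ := hx u
    _ ≤ δ * ((l : ℝ)⁻¹ * ‖w‖) := mul_le_mul_of_nonneg_left hu3 hδ
    _ = (δ * (l : ℝ)⁻¹) * ‖w‖ := by ring

theorem stepsR (hR1 : R 1 = 1) (hRm : ∀ s t, R (s * t) = R s * R t)
    (hR : ∀ s w, ‖(R s).mulVec w‖ ≤ ‖w‖) (x : G)
    (hx : ∀ w, ‖(R x).mulVec w - w‖ ≤ (l : ℝ)⁻¹ * ‖w‖) (m : ℕ) :
    ∀ w, ‖(R (x ^ (l ^ m))).mulVec w - w‖ ≤ ((l : ℝ)⁻¹) ^ (m + 1) * ‖w‖ := by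
  have hl0 : (0 : ℝ) ≤ (l : ℝ)⁻¹ := by positivity
  have hl1 : (l : ℝ)⁻¹ ≤ 1 := by
    have : (1 : ℝ) ≤ l := by exact_mod_cast hl.out.one_lt.le
    exact inv_le_one_of_one_le₀ this
  induction m with
  | zero => simpa using hx
  | succ k ih =>
    have h := stepR hR1 hRm (((l : ℝ)⁻¹) ^ (k + 1)) hR (by positivity) ?_ _ ih
    · intro w
      have := h w
      rw [← pow_mul, ← pow_succ] at this
      rw [pow_succ ((l : ℝ)⁻¹)]
      exact this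
    · calc ((l : ℝ)⁻¹) ^ (k + 1) ≤ ((l : ℝ)⁻¹) ^ 1 :=
          pow_le_pow_of_le_one hl0 hl1 (by omega)
        _ = _ := pow_one _

theorem cPow (hR : ∀ s w, ‖(R s).mulVec w‖ ≤ ‖w‖) (hR1 : R 1 = 1)
    (hRm : ∀ s t, R (s * t) = R s * R t) (hc : ∀ s t, c (s * t) = c s + (R s).mulVec (c t))
    (δ : ℝ) (hδ : 0 ≤ δ) (x : G) (hx : ∀ w, ‖(R x).mulVec w - w‖ ≤ δ * ‖w‖) (j : ℕ) :
    ‖c (x ^ j) - (j : ℚ_[l]) • c x‖ ≤ δ * ‖c x‖ := by
  induction j with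
  | zero =>
    rw [pow_zero, cOne hR1 hc]
    simp only [Nat.cast_zero, zero_smul, sub_self, norm_zero]
    exact mul_nonneg hδ (norm_nonneg _)
  | succ k ih =>
    have e : c (x ^ (k + 1)) - ((k + 1 : ℕ) : ℚ_[l]) • c x
        = (c (x ^ k) - (k : ℚ_[l]) • c x) + ((R (x ^ k)).mulVec (c x) - c x) := by
      rw [pow_succ, hc]
      push_cast
      rw [add_smul, one_smul]
      abel
    rw [e]
    exact addLe ih (powR hR1 hRm δ hR hδ x hx k _)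

/-- a power of an element congruent to one modulo `l` lies in `W` -/
theorem powW (hR : ∀ s w, ‖(R s).mulVec w‖ ≤ ‖w‖) (hR1 : R 1 = 1)
    (hRm : ∀ s t, R (s * t) = R s * R t) (hc : ∀ s t, c (s * t) = c s + (R s).mulVec (c t))
    (δ ε B : ℝ) (hδ : 0 < δ) (hε : 0 ≤ ε) (hB : ∀ s, ‖c s‖ ≤ B) (hδB : δ * B ≤ ε)
    (x : G) (hx : ∀ w, ‖(R x).mulVec w - w‖ ≤ (l : ℝ)⁻¹ * ‖w‖) :
    ∃ r : ℕ, x ^ (l ^ r) ∈ W hR hR1 hRm hc δ ε hδ.le hε := by
  have hl0 : (0 : ℝ) ≤ (l : ℝ)⁻¹ := by positivity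
  have hl1 : (l : ℝ)⁻¹ < 1 := by
    have : (1 : ℝ) < l := by exact_mod_cast hl.out.one_lt
    exact inv_lt_one_of_one_lt₀ this
  obtain ⟨m, hm⟩ := exists_pow_lt_of_lt_one hδ hl1
  have hm' : ((l : ℝ)⁻¹) ^ (m + 1) ≤ δ := by
    refine le_trans ?_ hm.le
    exact pow_le_pow_of_le_one hl0 hl1.le (by omega)
  have h1 : ∀ w, ‖(R (x ^ (l ^ m))).mulVec w - w‖ ≤ δ * ‖w‖ := fun w =>
    (stepsR hR1 hRm hR x hx m w).trans (mul_le_mul_of_nonneg_right hm' (norm_nonneg _))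
  refine ⟨m + m, ?_⟩
  rw [pow_add, pow_mul]
  refine ⟨powR hR1 hRm δ hR hδ.le _ h1 _, ?_⟩
  have h2 := cPow hR hR1 hRm hc δ hδ.le _ h1 (l ^ m)
  have e : c ((x ^ (l ^ m)) ^ (l ^ m))
      = (c ((x ^ (l ^ m)) ^ (l ^ m)) - ((l ^ m : ℕ) : ℚ_[l]) • c (x ^ (l ^ m)))
        + ((l ^ m : ℕ) : ℚ_[l]) • c (x ^ (l ^ m)) := by abel
  rw [e]
  refine addLe (h2.trans ((mul_le_mul_of_nonneg_left (hB _) hδ.le).trans hδB)) ?_
  rw [norm_smul]
  push_cast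
  rw [norm_pow, normL]
  refine le_trans (mul_le_mul hm.le (hB _) (norm_nonneg _) hδ.le) hδB

theorem memW (hR : ∀ s w, ‖(R s).mulVec w‖ ≤ ‖w‖) (hR1 : R 1 = 1)
    (hRm : ∀ s t, R (s * t) = R s * R t) (hc : ∀ s t, c (s * t) = c s + (R s).mulVec (c t))
    (δ ε : ℝ) (hδ : 0 ≤ δ) (hε : 0 ≤ ε) (s : G) :
    s ∈ W hR hR1 hRm hc δ ε hδ hε ↔ (∀ w, ‖(R s).mulVec w - w‖ ≤ δ * ‖w‖) ∧ ‖c s‖ ≤ ε := Iff.rfl

theorem openW [TopologicalSpace G] [IsTopologicalGroup G]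
    (hR : ∀ s w, ‖(R s).mulVec w‖ ≤ ‖w‖) (hR1 : R 1 = 1)
    (hRm : ∀ s t, R (s * t) = R s * R t) (hc : ∀ s t, c (s * t) = c s + (R s).mulVec (c t))
    (hRc : Continuous R) (hcc : Continuous c)
    (δ ε : ℝ) (hδ : 0 < δ) (hε : 0 < ε) :
    IsOpen (W hR hR1 hRm hc δ ε hδ.le hε.le : Set G) := by
  refine Subgroup.isOpen_of_mem_nhds _ (g := 1) ?_
  have ho : ∀ i j, IsOpen {s : G | ‖(R s - 1) i j‖ < δ} := by
    intro i j
    refine isOpen_lt (Continuous.norm ?_) continuous_const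
    exact (hRc.sub continuous_const).matrix_elem i j
  have ho1 : IsOpen (⋂ i, ⋂ j, {s : G | ‖(R s - 1) i j‖ < δ}) :=
    isOpen_iInter_of_finite fun i => isOpen_iInter_of_finite fun j => ho i j
  have ho2 : IsOpen {s : G | ‖c s‖ < ε} := isOpen_lt hcc.norm continuous_const
  refine Filter.mem_of_superset ((ho1.inter ho2).mem_nhds ?_) ?_
  · refine ⟨Set.mem_iInter.2 fun i => Set.mem_iInter.2 fun j => ?_, ?_⟩
    · change ‖(R 1 - 1) i j‖ < δ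
      rw [hR1, sub_self, Matrix.zero_apply, norm_zero]; exact hδ
    · change ‖c 1‖ < ε
      rw [cOne hR1 hc, norm_zero]; exact hε
  · rintro s ⟨hs1, hs2⟩
    change ‖c s‖ < ε at hs2
    have hs3 : ∀ i j, ‖(R s - 1) i j‖ < δ := fun i j =>
      Set.mem_iInter.1 (Set.mem_iInter.1 hs1 i) j
    refine (memW hR hR1 hRm hc δ ε hδ.le hε.le s).2 ⟨fun w => ?_, hs2.le⟩
    have e : (R s).mulVec w - w = (R s - 1).mulVec w := by
      rw [Matrix.sub_mulVec, Matrix.one_mulVec]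
    rw [e]
    exact mvLe _ _ hδ.le (fun i j => (hs3 i j).le) w

/-- The abstract form of the theorem for a cocycle vanishing on `D`. -/
theorem absMain [TopologicalSpace G] [IsTopologicalGroup G] [CompactSpace G]
    (hR : ∀ s w, ‖(R s).mulVec w‖ ≤ ‖w‖) (hR1 : R 1 = 1)
    (hRm : ∀ s t, R (s * t) = R s * R t) (hc : ∀ s t, c (s * t) = c s + (R s).mulVec (c t))
    (hRc : Continuous R) (hcc : Continuous c) (D I FF : Set G)
    (heart : ∀ U : Subgroup G, IsOpen (U : Set G) → (∀ g, ∀ u ∈ U, g * u * g⁻¹ ∈ U) →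
      (∀ g ∈ FF, ∃ r : ℕ, g ^ (l ^ r) ∈ U) → (∀ g ∈ I, g ∈ U) → ∀ g, ∃ d ∈ D, d⁻¹ * g ∈ U)
    (hFF : ∀ g ∈ FF, ∃ r : ℕ, ∀ w, ‖(R (g ^ (l ^ r))).mulVec w - w‖ ≤ (l : ℝ)⁻¹ * ‖w‖)
    (hI : ∀ g ∈ I, R g = 1 ∧ c g = 0) (hD : ∀ g ∈ D, c g = 0) (s : G) : c s = 0 := by
  obtain ⟨B0, hB0⟩ : ∃ B : ℝ, ∀ s, ‖c s‖ ≤ B := by
    obtain ⟨C, hC⟩ := (isCompact_range hcc.norm).bddAbove
    exact ⟨C, fun s => hC ⟨s, rfl⟩⟩
  have hB0' : 0 ≤ B0 := (norm_nonneg _).trans (hB0 1)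
  have main : ∀ ε : ℝ, 0 < ε → ‖c s‖ ≤ ε := by
    intro ε hε
    have hB1 : 0 < B0 + 1 := by linarith
    have hδ : 0 < ε / (B0 + 1) := div_pos hε hB1
    have hδB : ε / (B0 + 1) * B0 ≤ ε := by
      rw [div_mul_eq_mul_div, div_le_iff₀ hB1]
      nlinarith
    obtain ⟨d, hd, hds⟩ := heart (W hR hR1 hRm hc (ε / (B0 + 1)) ε hδ.le hε.le)
      (openW hR hR1 hRm hc hRc hcc _ _ hδ hε)
      (fun g u hu => conjW hR hR1 hRm hc _ ε B0 hδ.le hε.le hB0 hδB g u hu)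
      (by
        intro g hg
        obtain ⟨r, hr⟩ := hFF g hg
        obtain ⟨t, ht⟩ := powW hR hR1 hRm hc _ ε B0 hδ hε.le hB0 hδB _ hr
        exact ⟨r + t, by rw [pow_add, pow_mul]; exact ht⟩)
      (by
        intro g hg
        obtain ⟨h1, h2⟩ := hI g hg
        refine (memW hR hR1 hRm hc _ ε hδ.le hε.le g).2 ⟨fun w => ?_, ?_⟩
        · rw [h1, Matrix.one_mulVec, sub_self, norm_zero]
          exact mul_nonneg hδ.le (norm_nonneg _)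
        · rw [h2, norm_zero]; exact hε.le) s
    have hds2 := ((memW hR hR1 hRm hc _ ε hδ.le hε.le _).1 hds).2
    have e : c s = c d + (R d).mulVec (c (d⁻¹ * s)) := by
      rw [← hc, mul_inv_cancel_left]
    rw [e, hD d hd, zero_add]
    exact (hR _ _).trans hds2
  rw [← norm_le_zero_iff]
  exact le_of_forall_pos_le_add fun ε hε => by rw [zero_add]; exact main ε hε

end abs

theorem matQ_one (l : ℕ) [Fact l.Prime] {n : ℕ} : matQ l (1 : GL (Fin n) ℤ_[l]) = 1 := by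
  have : matQ l (1 : GL (Fin n) ℤ_[l])
      = (PadicInt.Coe.ringHom (p := l)).mapMatrix ((1 : GL (Fin n) ℤ_[l]) : Matrix _ _ _) := rfl
  rw [this, Units.val_one, map_one]

theorem matQ_mul (l : ℕ) [Fact l.Prime] {n : ℕ} (g h : GL (Fin n) ℤ_[l]) :
    matQ l (g * h) = matQ l g * matQ l h := by
  have : ∀ g : GL (Fin n) ℤ_[l], matQ l g
      = (PadicInt.Coe.ringHom (p := l)).mapMatrix (g : Matrix _ _ _) := fun _ => rfl
  rw [this, this, this, Units.val_mul, map_mul]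

theorem matQ_le (l : ℕ) [Fact l.Prime] {n : ℕ} (g : GL (Fin n) ℤ_[l]) (w : Fin n → ℚ_[l]) :
    ‖(matQ l g).mulVec w‖ ≤ ‖w‖ := by
  have h := mvLe (matQ l g) 1 zero_le_one (fun i j => by
    change ‖(((g : Matrix (Fin n) (Fin n) ℤ_[l]) i j : ℤ_[l]) : ℚ_[l])‖ ≤ 1
    exact ((g : Matrix (Fin n) (Fin n) ℤ_[l]) i j).2) w
  simpa using h

theorem matQ_cong (l : ℕ) [Fact l.Prime] {n : ℕ} (g : GL (Fin n) ℤ_[l])
    (hg : Matrix.GeneralLinearGroup.map (PadicInt.toZMod (p := l)) g = 1) (w : Fin n → ℚ_[l]) :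
    ‖(matQ l g).mulVec w - w‖ ≤ (l : ℝ)⁻¹ * ‖w‖ := by
  have e : (matQ l g).mulVec w - w = (matQ l g - 1).mulVec w := by
    rw [Matrix.sub_mulVec, Matrix.one_mulVec]
  rw [e]
  refine mvLe _ _ (by positivity) (fun i j => ?_) w
  have h1 : (PadicInt.toZMod (p := l)) ((g : Matrix (Fin n) (Fin n) ℤ_[l]) i j)
      = (1 : Matrix (Fin n) (Fin n) (ZMod l)) i j := by
    have := congrArg (fun u : GL (Fin n) (ZMod l) => (u : Matrix (Fin n) (Fin n) (ZMod l)) i j) hg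
    simpa using this
  have h2 : (PadicInt.toZMod (p := l)) ((g : Matrix (Fin n) (Fin n) ℤ_[l]) i j
      - (1 : Matrix (Fin n) (Fin n) ℤ_[l]) i j) = 0 := by
    rw [map_sub, h1, Matrix.one_apply, Matrix.one_apply]
    split_ifs <;> simp
  have h3 : ‖(g : Matrix (Fin n) (Fin n) ℤ_[l]) i j - (1 : Matrix (Fin n) (Fin n) ℤ_[l]) i j‖ < 1 := by
    have h4 : (g : Matrix (Fin n) (Fin n) ℤ_[l]) i j - (1 : Matrix (Fin n) (Fin n) ℤ_[l]) i j
        ∈ RingHom.ker (PadicInt.toZMod (p := l)) := h2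
    rw [PadicInt.ker_toZMod, IsLocalRing.mem_maximalIdeal, mem_nonunits_iff] at h4
    exact PadicInt.mem_nonunits.1 h4
  have h5 : ‖(g : Matrix (Fin n) (Fin n) ℤ_[l]) i j - (1 : Matrix (Fin n) (Fin n) ℤ_[l]) i j‖
      ≤ (l : ℝ) ^ (-1 : ℤ) := by
    rw [PadicInt.norm_le_pow_iff_norm_lt_pow_add_one]
    simpa using h3
  have h6 : (matQ l g - 1) i j = (((g : Matrix (Fin n) (Fin n) ℤ_[l]) i j
      - (1 : Matrix (Fin n) (Fin n) ℤ_[l]) i j : ℤ_[l]) : ℚ_[l]) := by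
    rw [Matrix.sub_apply, Matrix.one_apply, Matrix.one_apply]
    change ((((g : Matrix (Fin n) (Fin n) ℤ_[l]) i j : ℤ_[l])) : ℚ_[l]) - _ = _
    push_cast
    split_ifs <;> simp
  rw [h6]
  rw [zpow_neg_one] at h5
  exact h5

theorem matQ_cont (l : ℕ) [Fact l.Prime] {n : ℕ} :
    Continuous (fun g : GL (Fin n) ℤ_[l] => matQ l g) := by
  refine continuous_matrix fun i j => ?_
  have h1 : Continuous (fun g : GL (Fin n) ℤ_[l] => (g : Matrix (Fin n) (Fin n) ℤ_[l])) :=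
    Units.continuous_val
  have h2 : Continuous (fun g : GL (Fin n) ℤ_[l] => (g : Matrix (Fin n) (Fin n) ℤ_[l]) i j) :=
    h1.matrix_elem i j
  exact continuous_subtype_val.comp h2

/-- Passage from a group to an open subgroup. -/
theorem heartAbs {Γ : Type*} [Group Γ] [TopologicalSpace Γ] (l : ℕ) (K : Subgroup Γ)
    (hopen : IsOpen (K : Set Γ)) (FF D II : Set Γ)
    (hH : ∀ U : Subgroup Γ, U ≤ K → IsOpen (U : Set Γ) → (∀ g ∈ K, ∀ u ∈ U, g * u * g⁻¹ ∈ U) →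
      (∀ g ∈ K, g ∈ FF → ∃ r : ℕ, g ^ (l ^ r) ∈ U) → (∀ g ∈ K, g ∈ II → g ∈ U) →
      ∀ g ∈ K, ∃ d ∈ K, d ∈ D ∧ d⁻¹ * g ∈ U)
    (U : Subgroup K) (hU : IsOpen (U : Set K)) (hn : ∀ g, ∀ u ∈ U, g * u * g⁻¹ ∈ U)
    (hp : ∀ g : K, (g : Γ) ∈ FF → ∃ r : ℕ, g ^ (l ^ r) ∈ U)
    (hI : ∀ g : K, (g : Γ) ∈ II → g ∈ U) (g : K) :
    ∃ d : K, (d : Γ) ∈ D ∧ d⁻¹ * g ∈ U := by
  obtain ⟨d, hd1, hd2, hu⟩ := hH (U.map K.subtype)
    (by rintro _ ⟨x, _, rfl⟩; exact x.2)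
    (by rw [Subgroup.coe_map]; exact hopen.isOpenMap_subtype_val _ hU)
    (by
      rintro g hg _ ⟨u, hu, rfl⟩
      exact ⟨⟨g, hg⟩ * u * ⟨g, hg⟩⁻¹, hn _ u hu, rfl⟩)
    (by
      rintro g hg1 hg2
      obtain ⟨r, hr⟩ := hp ⟨g, hg1⟩ hg2
      exact ⟨r, ⟨_, hr, rfl⟩⟩)
    (by
      rintro g hg1 hg2
      exact ⟨⟨g, hg1⟩, hI ⟨g, hg1⟩ hg2, rfl⟩) g.1 g.2
  obtain ⟨u, hu, hu2⟩ := hu
  refine ⟨⟨d, hd1⟩, hd2, ?_⟩
  have e : (⟨d, hd1⟩ : K)⁻¹ * g = u := by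
    apply Subtype.ext
    exact hu2.symm
  rw [e]
  exact hu

theorem compAbs {Γ : Type*} [Group Γ] [TopologicalSpace Γ] [IsTopologicalGroup Γ] [CompactSpace Γ]
    (K : Subgroup Γ) (hopen : IsOpen (K : Set Γ)) : CompactSpace K := by
  have hclosed : IsClosed (K : Set Γ) := Subgroup.isClosed_of_isOpen _ hopen
  exact isCompact_iff_compactSpace.1 hclosed.isCompact

theorem compQ : CompactSpace GQ := by
  have h1 : Algebra.IsAlgebraic ℚ Qb := AlgebraicClosure.isAlgebraic ℚ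
  have h3 : IsAlgClosed Qb := AlgebraicClosure.isAlgClosed ℚ
  have h2 : Normal ℚ Qb := normal_iff.2 fun x => ⟨h1.isIntegral.1 x, IsAlgClosed.splits _⟩
  have hg : IsGalois ℚ Qb := ⟨⟩
  infer_instance

theorem tCoh : StCoh := by
  intro l _ S F k P0 hk hHeart n ρ hρ c hcc hcoc hcI hcD
  obtain ⟨hρc, hρI, hρF⟩ := hρ
  obtain ⟨v, hv⟩ := hcD
  refine ⟨v, fun σ => ?_⟩
  have hopen : IsOpen ((GF k : Subgroup GQ) : Set GQ) := IntermediateField.fixingSubgroup_isOpen k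
  have hcQ : CompactSpace GQ := compQ
  have hcomp : CompactSpace (GF k) := compAbs (GF k) hopen
  have hRc : Continuous (fun s : GF k => matQ l (ρ s)) := (matQ_cont l).comp hρc
  have h := absMain (l := l) (n := n) (G := GF k) (R := fun s => matQ l (ρ s))
    (c := fun s => c s - ((matQ l (ρ s)).mulVec v - v))
    (fun s w => matQ_le l (ρ s) w)
    (by simp only [map_one]; exact matQ_one l)
    (fun s t => by simp only [map_mul]; exact matQ_mul l _ _)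
    (by
      intro s t
      simp only [hcoc, map_mul, matQ_mul, ← Matrix.mulVec_mulVec, Matrix.mulVec_sub]
      abel)
    hRc
    (hcc.sub ((hRc.matrix_mulVec continuous_const).sub continuous_const))
    {s : GF k | s.1 ∈ Dec P0} {s : GF k | ∃ P, Out l S P ∧ s.1 ∈ Ine P} {s : GF k | s.1 ∈ GF F}
    (fun U hU hn hp hI g => heartAbs l (GF k) hopen (GF F : Set GQ) (Dec P0 : Set GQ)
      {s : GQ | ∃ P, Out l S P ∧ s ∈ Ine P}
      (fun U hU1 hU2 hU3 hU4 hU5 g hg => by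
        obtain ⟨d, ⟨hd1, hd2⟩, hd3⟩ := hHeart U hU1 hU2 hU3 (fun g hg => hU4 g hg.1 hg.2)
          (fun P hP g hg => hU5 g hg.1 ⟨P, hP, hg.2⟩) g hg
        exact ⟨d, hd1, hd2, hd3⟩) U hU hn hp hI g)
    (by
      intro g hg
      obtain ⟨r, hr⟩ := hρF g hg
      refine ⟨r, fun w => ?_⟩
      refine matQ_cong l _ ?_ w
      rw [map_pow, map_pow]
      exact hr)
    (by
      rintro g ⟨P, hP, hg⟩
      have h1 : matQ l (ρ g) = 1 := by
        rw [hρI P hP g hg]; exact matQ_one l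
      refine ⟨h1, ?_⟩
      simp only [h1, hcI P hP g hg, Matrix.one_mulVec, sub_self])
    (by
      intro g hg
      simp only [hv g hg, sub_self])
    σ
  exact sub_eq_zero.1 h

end Pool.Agent.Helper57.RG
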